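import Pool.Agent.H7.OG.Turan
import Pool.Agent.H7.OG.Num

/-!
# Turán's `(3,4)`-problem for the 3-graphs of ordered graphs

A graph `G` on a linearly ordered set of `n` vertices defines the 3-graph `triples G` of the triples
`x < y < z` such that `y z` is an edge and `x y`, `x z` are not both edges. It never contains `K_4^3`,
and Turán's construction is one of these 3-graphs, as are many others with the same number of edges.
Whether Turán's bound holds for all of them is not known to us. We prove an inequality for all ordered
graphs: cut the vertices into the first two thirds and the last third; then the number of edges of the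
3-graph exceeds Turán's number at most by half the difference between the number of the triples
`x < y < z` of the first part whose only edge is `y z`, and the number of the triples of this part
whose only edge is `x y` or `x z` or which are triangles. So a counterexample must have many triples
of the first kind. For instance Turán's bound holds if the first part spans a complete multipartite
graph (with any number of classes of any sizes, in any order), whatever the other pairs are.
For all ordered graphs we prove the bound `0.5559` for the edge density in the limit (Turán's value is
`5/9`), by a flag algebra certificate of order 4 over ordered graphs with the vertices cut into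
three thirds and the second third reversed.
-/

set_option autoImplicit false

namespace Pool.Agent.Results.MP_a4d830_co.OrderedGraphs

open Finset Pool.Agent.H7.OG

/-- (1) The 3-graphs of ordered graphs contain no `K_4^3`.
(2) The general cut inequality: the first `m` vertices against the others, with an integer `M`.
(3) The cut at two thirds: Turán's number and the three pattern counts.
(4) Exact bound if non-adjacency is transitive on the first part.
(5) Exact bound if the first part is bipartite and the second one complete.
(6) Turán's construction attains the bounds.
(7) A numerical bound for all ordered graphs. -/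
theorem result :
    (∀ (n : ℕ) (G : SimpleGraph (Fin n)), CliqueFree (triples G)) ∧
    (∀ (n : ℕ) (G : SimpleGraph (Fin n)) (m : ℕ) (M : ℤ), m ≤ n → (n : ℤ) ≤ m + M + 2 →
      2 * ((triples G).card : ℤ) ≤ m * M * (M + 1) + (n - m) * (m - M) * (m - M - 1)
        + m * (n - m) * (n - m - 1) + (upper G m - lower G m - triangles G m)
        - (2 * M - m + 2) * edges G m) ∧
    (∀ (n : ℕ) (G : SimpleGraph (Fin n)),
      (2 * ((triples G).card : ℤ) ≤ 2 * turan n + (if n % 3 = 1 then 2 * (n / 3 : ℕ) else 0)
        + (upper G (cut n) - lower G (cut n) - triangles G (cut n))) ∧
      (54 * ((triples G).card : ℤ) ≤ 5 * n ^ 3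
        + 27 * (upper G (cut n) - lower G (cut n) - triangles G (cut n)))) ∧
    (∀ (n : ℕ) (G : SimpleGraph (Fin n)),
      (∀ u v w : Fin n, u.val < cut n → v.val < cut n → w.val < cut n →
        ¬ G.Adj u v → ¬ G.Adj v w → ¬ G.Adj u w) →
      2 * ((triples G).card : ℤ) + triangles G (cut n)
        ≤ 2 * turan n + (if n % 3 = 1 then 2 * (n / 3 : ℕ) else 0)) ∧
    (∀ (n : ℕ) (G : SimpleGraph (Fin n)) (P : Finset (Fin n)),
      (∀ u v : Fin n, u.val < cut n → v.val < cut n → G.Adj u v → (u ∈ P ↔ v ∉ P)) →
      (∀ u v : Fin n, cut n ≤ u.val → cut n ≤ v.val → u ≠ v → G.Adj u v) →
      2 * ((triples G).card : ℤ)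
        ≤ 2 * turan n + (if n % 3 = 1 then 2 * (n / 3 : ℕ) else 0)) ∧
    (∀ n : ℕ, ∃ G : SimpleGraph (Fin n),
      (∀ u v w : Fin n, u.val < cut n → v.val < cut n → w.val < cut n →
        ¬ G.Adj u v → ¬ G.Adj v w → ¬ G.Adj u w) ∧
      (triples G).card = turan n ∧ triangles G (cut n) = 0) ∧
    (∀ (n : ℕ) (G : SimpleGraph (Fin n)), 60000 * (triples G).card ≤ 5559 * n ^ 3) := by
  refine ⟨fun n G => triples_cliqueFree G, fun n G m M hm hM => cut_inequality G m hm M hM,
    fun n G => cut_two_thirds G, fun n G h => ?_,
    fun n G P hP hC => bipartite_complete G P hP hC, attained, triples_num⟩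
  have h1 := (cut_two_thirds G).1
  obtain ⟨hu, hl⟩ := multipartite G (cut n) h
  rw [hu, hl] at h1
  push_cast at h1 ⊢
  linarith

end Pool.Agent.Results.MP_a4d830_co.OrderedGraphs
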